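import Mathlib
set_option autoImplicit false
namespace Pool.Agent.H.MP_5df5df_gt
open Set MeasureTheory Metric

abbrev E := EuclideanSpace ℝ (Fin 3)

def IsBody (K : Set E) : Prop := IsCompact K ∧ Convex ℝ K ∧ (interior K).Nonempty

noncomputable def xray (u : E) (K : Set E) (x : E) : ENNReal := volume {t : ℝ | x + t • u ∈ K}

def K0 : Set E := {p | p 0 ^ 2 + p 1 ^ 2 + |p 2 - (p 0 * p 1 + p 0 ^ 3) / 4| ≤ 1}

lemma body0 : IsBody K0 := by
  refine ⟨isCompact_of_isClosed_isBounded (isClosed_le (by fun_prop) continuous_const)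
    ((isBounded_closedBall (x := 0) (r := 2)).subset fun p hp => ?_), ?_, 0, ?_⟩
  · have h : p 0 ^ 2 + p 1 ^ 2 + |p 2 - (p 0 * p 1 + p 0 ^ 3) / 4| ≤ 1 := hp
    have h0 := abs_nonneg (p 2 - (p 0 * p 1 + p 0 ^ 3) / 4)
    have a : |p 0| ≤ 1 := by rw [← sq_le_one_iff_abs_le_one]; nlinarith [sq_nonneg (p 1)]
    obtain ⟨a1, a2⟩ := abs_le.1 a
    obtain ⟨b1, b2⟩ := abs_le.1 (show |p 2 - (p 0 * p 1 + p 0 ^ 3) / 4| ≤ 1 - p 0 ^ 2 - p 1 ^ 2 by
      linarith)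
    have n1 := mul_nonneg (sq_nonneg (p 0)) (sub_nonneg.2 a1)
    have n2 := mul_nonneg (sq_nonneg (p 0)) (sub_nonneg.2 a2)
    have c : |p 2| ≤ 1 := abs_le.2
      ⟨by nlinarith [sq_nonneg (p 0 + p 1), sq_nonneg (p 0), sq_nonneg (p 1)],
      by nlinarith [sq_nonneg (p 0 - p 1), sq_nonneg (p 0), sq_nonneg (p 1)]⟩
    rw [mem_closedBall_zero_iff, EuclideanSpace.norm_eq, Real.sqrt_le_iff]
    simp only [Fin.sum_univ_three, Real.norm_eq_abs, sq_abs]
    exact ⟨by norm_num, by nlinarith [(sq_le_one_iff_abs_le_one _).2 c]⟩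
  · intro p hp q hq a b ha hb hab
    have hp : p 0 ^ 2 + p 1 ^ 2 + |p 2 - (p 0 * p 1 + p 0 ^ 3) / 4| ≤ 1 := hp
    have hq : q 0 ^ 2 + q 1 ^ 2 + |q 2 - (q 0 * q 1 + q 0 ^ 3) / 4| ≤ 1 := hq
    have x1 : |p 0| ≤ 1 := by
      rw [← sq_le_one_iff_abs_le_one]
      nlinarith [sq_nonneg (p 1), abs_nonneg (p 2 - (p 0 * p 1 + p 0 ^ 3) / 4)]
    have x2 : |q 0| ≤ 1 := by
      rw [← sq_le_one_iff_abs_le_one]
      nlinarith [sq_nonneg (q 1), abs_nonneg (q 2 - (q 0 * q 1 + q 0 ^ 3) / 4)]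
    obtain rfl : b = 1 - a := by linarith
    rw [← le_sub_iff_add_le', abs_le] at hp hq
    rw [abs_le] at x1 x2
    obtain ⟨w, hw⟩ : ∃ w, w = (1 + a) * p 0 + (2 - a) * q 0 := ⟨_, rfl⟩
    have w1 : 0 ≤ 3 - w := by nlinarith
    have w2 : 0 ≤ 3 + w := by nlinarith
    have m := mul_nonneg ha hb
    change (a * p 0 + (1 - a) * q 0) ^ 2 + (a * p 1 + (1 - a) * q 1) ^ 2 + |(a * p 2 + (1 - a) * q 2) -
      ((a * p 0 + (1 - a) * q 0) * (a * p 1 + (1 - a) * q 1) + (a * p 0 + (1 - a) * q 0) ^ 3) / 4| ≤ 1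
    rw [← le_sub_iff_add_le', abs_le]
    have k1 := mul_nonneg m (add_nonneg (add_nonneg (mul_nonneg (sq_nonneg (p 0 - q 0)) w1)
      (sq_nonneg (p 0 - q 0 - (p 1 - q 1) / 2))) (mul_nonneg (by norm_num : (0 : ℝ) ≤ 15 / 4)
      (sq_nonneg (p 1 - q 1))))
    have k2 := mul_nonneg m (add_nonneg (add_nonneg (mul_nonneg (sq_nonneg (p 0 - q 0)) w2)
      (sq_nonneg (p 0 - q 0 + (p 1 - q 1) / 2))) (mul_nonneg (by norm_num : (0 : ℝ) ≤ 15 / 4)
      (sq_nonneg (p 1 - q 1))))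
    rw [hw] at k1 k2
    constructor
    · linear_combination a * hp.1 + (1 - a) * hq.1 + k2 / 4
    · linear_combination a * hp.2 + (1 - a) * hq.2 + k1 / 4
  · refine mem_interior.2 ⟨{p : E | p 0 ^ 2 + p 1 ^ 2 + |p 2 - (p 0 * p 1 + p 0 ^ 3) / 4| < 1},
      fun p hp => le_of_lt (b := (1 : ℝ)) hp, isOpen_lt (by fun_prop) continuous_const, by simp⟩

lemma body_pre {K : Set E} (h : IsBody K) (T : E ≃L[ℝ] E) (c : E) :
    IsBody ((fun p => T p + c) ⁻¹' K) := by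
  let H : E ≃ₜ E := T.toHomeomorph.trans (Homeomorph.addRight c)
  refine ⟨H.isCompact_preimage.2 h.1, (h.2.1.translate_preimage_left c).linear_preimage
    T.toLinearEquiv.toLinearMap, ?_⟩
  obtain ⟨x, hx⟩ := h.2.2
  exact ⟨H.symm x, by
    change _ ∈ interior (H ⁻¹' K)
    rw [← H.preimage_interior]; simpa using hx⟩

lemma vol (a c d : ℝ) : volume {t : ℝ | a + |t + c| ≤ 1} = volume {t : ℝ | a + |t + d| ≤ 1} := by
  rw [← measure_preimage_add_right volume (d - c) {t : ℝ | a + |t + c| ≤ 1}]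
  congr 1
  ext t
  simp [add_assoc]

lemma base (u : E) (hu : ‖u‖ = 1) : ∃ K, IsBody K ∧ K ≠ K0 ∧
    xray !₂[0, 0, 1] K = xray !₂[0, 0, 1] K0 ∧ xray u K = xray u K0 := by
  have hn : u 0 ^ 2 + u 1 ^ 2 + u 2 ^ 2 = 1 := by
    rw [EuclideanSpace.norm_eq, Real.sqrt_eq_one] at hu
    simpa [Fin.sum_univ_three] using hu
  have x0 : ∀ x : E, xray !₂[0, 0, 1] K0 x = volume {t : ℝ | x 0 ^ 2 + x 1 ^ 2 + |t + 0| ≤ 1} :=
    fun x => by
      rw [← vol _ (x 2 - (x 0 * x 1 + x 0 ^ 3) / 4), xray]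
      congr 1; ext t; simp [K0]; ring_nf
  by_cases hr : u 0 ^ 2 + u 1 ^ 2 = 0
  · have a0 : u 0 = 0 := by nlinarith [sq_nonneg (u 0), sq_nonneg (u 1)]
    have a1 : u 1 = 0 := by nlinarith [sq_nonneg (u 0), sq_nonneg (u 1)]
    refine ⟨_, body_pre body0 (ContinuousLinearEquiv.refl ℝ E) u, fun h => ?_, ?_, ?_⟩
    · have : u ∈ K0 := by
        simp [K0, a0, a1, ← sq_le_one_iff_abs_le_one]; nlinarith
      rw [← h] at this
      simp [K0, a0, a1, ← sq_le_one_iff_abs_le_one] at this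
      nlinarith
    · ext x
      rw [x0, ← vol _ (x 2 + u 2 - (x 0 * x 1 + x 0 ^ 3) / 4), xray]
      congr 1; ext t; simp [K0, a0, a1]; ring_nf
    · ext x
      rw [xray, xray, ← measure_preimage_add_right volume 1 {t : ℝ | x + t • u ∈ K0}]
      congr 1; ext t; simp [add_smul, add_assoc]
  · obtain ⟨l, hl⟩ : ∃ l : E →ₗ[ℝ] ℝ, ∀ p, l p = (p 0 * u 0 + p 1 * u 1) / (u 0 ^ 2 + u 1 ^ 2) :=
      ⟨⟨⟨fun p => (p 0 * u 0 + p 1 * u 1) / (u 0 ^ 2 + u 1 ^ 2), fun p q => by simp; ring⟩,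
        fun c p => by simp; ring⟩, fun _ => rfl⟩
    have lu : l u = 1 := by rw [hl, div_eq_one_iff_eq hr]; ring
    obtain ⟨T, hT⟩ : ∃ T : E ≃L[ℝ] E, ∀ p, T p = p - (2 * l p) • u :=
      ⟨(LinearEquiv.ofInvolutive (LinearMap.id - (2 • l).smulRight u) fun p => by
        simp [lu]; module).toContinuousLinearEquiv, fun p => by simp⟩
    refine ⟨_, body_pre body0 T 0, fun h => ?_, ?_, ?_⟩
    · have key : ∀ a b : ℝ, a ^ 2 + b ^ 2 ≤ 1 → ∀ c, c * (u 0 ^ 2 + u 1 ^ 2) = a * u 0 + b * u 1 →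
          (a * b + a ^ 3) / 4 - 2 * c * u 2 =
            ((a - 2 * c * u 0) * (b - 2 * c * u 1) + (a - 2 * c * u 0) ^ 3) / 4 := by
        intro a b hab c hc
        have e : (a - 2 * c * u 0) ^ 2 + (b - 2 * c * u 1) ^ 2 = a ^ 2 + b ^ 2 := by
          linear_combination 4 * c * hc
        have k : ∀ s : ℝ, |s| = 1 - (a ^ 2 + b ^ 2) → |(a * b + a ^ 3) / 4 + s - 2 * c * u 2 -
            ((a - 2 * c * u 0) * (b - 2 * c * u 1) + (a - 2 * c * u 0) ^ 3) / 4| ≤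
            1 - (a ^ 2 + b ^ 2) := fun s hs => by
          have : (!₂[a, b, (a * b + a ^ 3) / 4 + s] : E) ∈ K0 := by simp [K0, hs]
          rw [← h] at this
          have lc : l !₂[a, b, (a * b + a ^ 3) / 4 + s] = c := by
            rw [hl, div_eq_iff hr, hc]; simp
          simp [K0, hT, lc, e] at this
          linarith
        have k1 := (abs_le.1 (k _ (abs_of_nonneg (sub_nonneg.2 hab)))).2
        have k2 := (abs_le.1 (k (-(1 - (a ^ 2 + b ^ 2))) (by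
          rw [abs_neg, abs_of_nonneg (sub_nonneg.2 hab)]))).1
        linarith
      have e1 := key (u 0) (u 1) (by nlinarith [sq_nonneg (u 2)]) 1 (by ring)
      have e2 := key (u 0 / 2) (u 1 / 2) (by nlinarith [sq_nonneg (u 2)]) (1 / 2) (by ring)
      have a0 : u 0 = 0 := pow_eq_zero_iff (n := 3) (by norm_num) |>.1 (by linarith)
      have a2 : u 2 = 0 := by rw [a0] at e1; linarith
      have a1 : u 1 ≠ 0 := fun e => hr (by simp [a0, e])
      have e3 := key (3 / 5) (4 / 5) (by norm_num) (4 / 5 / u 1) (by rw [a0]; field_simp; ring)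
      rw [a0, a2, mul_assoc 2 _ (u 1), div_mul_cancel₀ _ a1] at e3
      norm_num at e3
    · ext x
      have lx : ∀ t : ℝ, l (x + t • !₂[0, 0, 1]) = l x := fun t => by simp [hl]
      have e : (x 0 - 2 * l x * u 0) ^ 2 + (x 1 - 2 * l x * u 1) ^ 2 = x 0 ^ 2 + x 1 ^ 2 := by
        have := (eq_div_iff hr).1 (hl x)
        linear_combination 4 * l x * this
      rw [x0, ← vol _ (x 2 - 2 * l x * u 2 - ((x 0 - 2 * l x * u 0) * (x 1 - 2 * l x * u 1) +
        (x 0 - 2 * l x * u 0) ^ 3) / 4), xray]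
      congr 1; ext t
      simp only [K0, mem_preimage, mem_ofPred_eq, hT, lx]
      simp [e]; ring_nf
    · ext x
      rw [xray, xray, ← (Measure.measurePreserving_sub_left volume (-(2 * l x))).measure_preimage
        (s := {t : ℝ | x + t • u ∈ K0})
        (body0.1.isClosed.preimage (by fun_prop)).measurableSet.nullMeasurableSet]
      congr 1; ext t
      simp only [mem_preimage, mem_ofPred_eq, hT, map_add, map_smul, lu]
      rw [show x + t • u - (2 * (l x + t • (1 : ℝ))) • u + 0 = x + (-(2 * l x) - t) • u by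
        simp only [smul_eq_mul]; module]

theorem main (u₁ : E) (h₁ : ‖u₁‖ = 1) : ∃ K, IsBody K ∧ ∀ u₂ : E, ‖u₂‖ = 1 →
    ∃ K', IsBody K' ∧ K' ≠ K ∧ xray u₁ K' = xray u₁ K ∧ xray u₂ K' = xray u₂ K := by
  obtain ⟨R, hR⟩ : ∃ R : E ≃ₗᵢ[ℝ] E, R u₁ = !₂[0, 0, 1] :=
    ⟨_, Submodule.reflection_sub (by
      rw [h₁, EuclideanSpace.norm_eq]; simp [Fin.sum_univ_three])⟩
  have x : ∀ u K x, xray u ((fun p => R.toContinuousLinearEquiv p + 0) ⁻¹' K) x =
      xray (R u) K (R x) := fun u K x => by simp [xray]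
  refine ⟨_, body_pre body0 R.toContinuousLinearEquiv 0, fun u hu => ?_⟩
  obtain ⟨K, a, b, c, d⟩ := base (R u) (by simpa using hu)
  refine ⟨_, body_pre a R.toContinuousLinearEquiv 0, fun h => b ?_, funext fun y => ?_,
    funext fun y => ?_⟩
  · ext p
    simpa using Set.ext_iff.1 h (R.symm p)
  · rw [x, x, hR, c]
  · rw [x, x, d]

end Pool.Agent.H.MP_5df5df_gt
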